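import Pool.Agent.Lib.MP_12a5fd_co.BT.Design

/-! The two-triangle cluster design with thin layers. -/

set_option autoImplicit false
set_option linter.unusedSectionVars false

namespace Pool.Agent.Lib.MP_12a5fd_co.YU

open Finset Pool.Agent.Lib.MP_2b1ae8_co.AT Pool.Agent.Lib.MP_12a5fd_co.BT

theorem design3 (Q Lr : ℕ) [NeZero Q] (a b δ t : Fin (2 * Lr) → ℕ) (xr : Fin (2 * Lr) → Fin Lr)
    (U : ℕ → ℕ) (habd : ∀ Z, a Z + b Z + δ Z ≤ Q) (hb : ∀ Z, 2 * b Z ≤ Q)
    (hx : ∀ X, ∑ Z with xr Z = X, a Z ≤ Q)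
    (hU : ∀ Z : Fin (2 * Lr), U Z + 2 * (a Z + b Z + δ Z) ≤ U (Z + 2))
    (ht : ∀ Z : Fin (2 * Lr), t Z = 0 ∨ (t Z + 7) * Q + U Z ≤ 2 * Lr * Q) :
    ∃ T : DS (Fin Lr ⊕ Fin (2 * Lr)) (Fin (2 * Lr)) (RQ Q) Q, T.cs = Sum.isLeft ∧ T.a = a ∧
      T.b = b ∧ T.δ = δ ∧ T.t = t := by
  classical
  have hQ : 0 < Q := Nat.pos_of_ne_zero (NeZero.ne Q)
  have hext : ∀ f : Fin (2 * Lr) → ℕ, ∃ F : ℕ → ℕ, ∀ Z : Fin (2 * Lr), F Z = f Z := fun f =>
    ⟨fun i => if h : i < 2 * Lr then f ⟨i, h⟩ else 0, fun Z => dif_pos Z.2⟩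
  obtain ⟨A, hA⟩ := hext a
  obtain ⟨B, hB⟩ := hext fun Z => 2 * b Z
  obtain ⟨D, hD⟩ := hext fun Z => 2 * δ Z
  obtain ⟨j, hj, j0, j1, mj, sj⟩ := dsg_pre A
  obtain ⟨k, hk, k0, k1, mk, sk⟩ := dsg_pre B
  obtain ⟨p, hp, p0, p1, mp, -⟩ := dsg_pre D
  have hs : ∀ n, n < 2 * Lr → 2 * j n + k n + p n ≤ U n := by
    intro n
    induction n using Nat.twoStepInduction with
    | zero => omega
    | one => omega
    | more n ih _ =>
      intro h
      have h1 := hU ⟨n, by omega⟩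
      have h2 := hA ⟨n, by omega⟩
      have h3 := hB ⟨n, by omega⟩
      have h4 := hD ⟨n, by omega⟩
      have h5 := ih (by omega)
      simp only at h1 h2 h3 h4
      rw [hj, hk, hp]
      omega
  obtain ⟨N, hN⟩ : ∃ N, Lr * Q = N := ⟨_, rfl⟩
  have hN2 : 2 * Lr * Q = 2 * N := by rw [mul_assoc, hN]
  obtain ⟨x, xi, xl, xs, xd, xc⟩ := dsg_pos Q N Lr (by rw [Fintype.card_fin, hN]) A j hj mj
    (by
      rw [sj, sum_range, sum_congr rfl fun Z _ => hA Z, ← sum_fiberwise univ xr, ← hN]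
      exact (sum_le_card_nsmul _ _ Q fun X _ => hx X).trans (by simp))
    xr (by simpa only [hA] using hx)
  obtain ⟨y, yi, yl, ys, yd, yc⟩ := dsg_pos Q (2 * N) Lr (by rw [Fintype.card_fin, hN2]) B k hk mk
    (by
      rw [sk, sum_range, sum_congr rfl fun Z _ => hB Z, ← hN2]
      exact (sum_le_card_nsmul _ _ Q fun Z _ => hb Z).trans (by simp))
    id (fun Z => by simpa [filter_eq', hB] using hb Z)
  simp only [hA, hB, id] at xc yc
  have cx : Fintype.card (Fin Lr × ZMod Q) = N := by simp [ZMod.card, hN]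
  have cy : Fintype.card (Fin (2 * Lr) × ZMod Q) = 2 * N := by simp [ZMod.card, hN2]
  obtain ⟨CY, hCY⟩ : ∃ CY : Fin (2 * Lr) → Fin (2 * Lr) × ZMod Q → Prop, ∀ Z w, CY Z w ↔
    k Z + 2 * b Z ≤ y Z w ∧ y Z w + (p Z + 2 * δ Z) + 2 * (j Z + a Z) + 2 < 2 * N :=
    ⟨_, fun _ _ => Iff.rfl⟩
  obtain ⟨RX, hRX⟩ : ∃ RX : Fin (2 * Lr) → Fin Lr × ZMod Q → Prop, ∀ Z u, RX Z u ↔
    j Z + a Z ≤ x Z u ∧ 2 * x Z u + p Z + (k Z + 2 * b Z) + 2 < 2 * N := ⟨_, fun _ _ => Iff.rfl⟩
  obtain ⟨W, hW⟩ : ∃ W : Fin (2 * Lr) → Fin Lr × ZMod Q → Fin (2 * Lr) × ZMod Q → Prop,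
    ∀ Z u w, W Z u w ↔ CY Z w ∧ 2 * N ≤ 2 * x Z u + y Z w + (p Z + 2 * δ Z) + 2 ∧
      2 * x Z u + y Z w + p Z + 2 < 2 * N := ⟨_, fun _ _ _ => Iff.rfl⟩
  obtain ⟨P, hT, hF, hO⟩ : ∃ P : Fin (2 * Lr) → Option Bool → Fin Lr × ZMod Q →
      Fin (2 * Lr) × ZMod Q → Prop,
      (∀ Z u w, P Z (some true) u w ↔ (j Z ≤ x Z u ∧ x Z u < j Z + a Z) ∧ CY Z w) ∧
      (∀ Z u w, P Z (some false) u w ↔ RX Z u ∧ (k Z ≤ y Z w ∧ y Z w < k Z + 2 * b Z)) ∧
      ∀ Z u w, P Z none u w ↔ (u.1 ≠ xr Z ∧ w.1 ≠ Z) ∧ W Z u w :=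
    ⟨fun Z o u w =>
      match o with
      | some true => (j Z ≤ x Z u ∧ x Z u < j Z + a Z) ∧ CY Z w
      | some false => RX Z u ∧ (k Z ≤ y Z w ∧ y Z w < k Z + 2 * b Z)
      | none => (u.1 ≠ xr Z ∧ w.1 ≠ Z) ∧ W Z u w,
      fun _ _ _ => Iff.rfl, fun _ _ _ => Iff.rfl, fun _ _ _ => Iff.rfl⟩
  have ex : ∀ Z o Z' o' u w, P Z o u w → P Z' o' u w → Z = Z' ∧ o = o' := by
    intro Z o Z' o' u w h h'
    have h1 := xs Z Z' u
    have h2 := xd Z Z' u
    have h3 := ys Z Z' w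
    have h4 := yd Z Z' w
    have hZ : Z = Z' := by
      have m1 := mj (Z + 2) Z'
      have m2 := mk (Z + 2) Z'
      have m3 := mp (Z + 2) Z'
      have m4 := mj (Z' + 2) Z
      have m5 := mk (Z' + 2) Z
      have m6 := mp (Z' + 2) Z
      rw [hj, hA] at m1 m4
      rw [hk, hB] at m2 m5
      rw [hp, hD] at m3 m6
      refine Fin.ext ?_
      by_cases hf : (Z : ℕ) % 2 = Z' % 2
      · have h1 := h1 hf
        have h3 := h3 hf
        rcases lt_trichotomy (Z : ℕ) Z' with hl | hl | hl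
        · have m1 := m1 (by omega) (by omega)
          have m2 := m2 (by omega) (by omega)
          have m3 := m3 (by omega) (by omega)
          rcases o with _ | _ | _ <;> rcases o' with _ | _ | _ <;>
            simp only [hT, hF, hO, hW, hCY, hRX] at h h' <;> omega
        · exact hl
        · have m4 := m4 (by omega) (by omega)
          have m5 := m5 (by omega) (by omega)
          have m6 := m6 (by omega) (by omega)
          rcases o with _ | _ | _ <;> rcases o' with _ | _ | _ <;>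
            simp only [hT, hF, hO, hW, hCY, hRX] at h h' <;> omega
      · have h2 := h2 hf
        have h4 := h4 hf
        rcases o with _ | _ | _ <;> rcases o' with _ | _ | _ <;>
          simp only [hT, hF, hO, hW, hCY, hRX] at h h' <;> omega
    subst hZ
    refine ⟨rfl, ?_⟩
    rcases o with _ | _ | _ <;> rcases o' with _ | _ | _ <;>
      first | rfl | (simp only [hT, hF, hO, hW, hCY, hRX] at h h'; omega)
  have in_le : ∀ Z w, #{u | W Z u w} ≤ δ Z := fun Z w =>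
    ds_le (x Z) (xi Z) ((2 * N - (y Z w + (p Z + 2 * δ Z) + 2) + 1) / 2) (δ Z) _ fun u hu => by
      simp only [hW, hCY] at hu
      omega
  have in_ge : ∀ Z w, CY Z w → δ Z ≤ #{u | W Z u w} := fun Z w hw =>
    ds_ge (x Z) (xi Z) N cx (xl Z) ((2 * N - (y Z w + (p Z + 2 * δ Z) + 2) + 1) / 2) (δ Z)
      (by rw [hCY] at hw; omega) _ fun u h1 h2 => (hW _ _ _).2 ⟨hw, by
        rw [hCY] at hw
        omega⟩
  have out_le : ∀ Z u, #{w | W Z u w} ≤ 2 * δ Z := fun Z u =>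
    ds_le (y Z) (yi Z) (2 * N - (2 * x Z u + (p Z + 2 * δ Z) + 2)) (2 * δ Z) _ fun w hw => by
      simp only [hW, hCY] at hw
      omega
  let S : Fin Lr ⊕ Fin (2 * Lr) → Fin Lr ⊕ Fin (2 * Lr) → Fin (2 * Lr) → Option Bool →
      Finset (RQ Q) := fun U V Z o =>
    match U, V with
    | Sum.inl X, Sum.inr Y => {v | P Z o (X, v.1) (Y, v.2)}
    | _, _ => ∅
  have hcol : ∀ Z Y, ∑ X, #(S X (Sum.inr Y) Z none) = ∑ v', #{u | P Z none u (Y, v')} := by
    intro Z Y
    simp only [S, Fintype.sum_sum_type, card_empty, sum_const_zero, add_zero, card_filter,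
      Fintype.sum_prod_type]
    rw [sum_comm (γ := ZMod Q)]
    exact sum_congr rfl fun _ _ => sum_comm
  have hrow : ∀ Z X, ∑ Y, #(S (Sum.inl X) Y Z none) = ∑ v, #{w | P Z none (X, v) w} := by
    intro Z X
    simp only [S, Fintype.sum_sum_type, card_empty, sum_const_zero, zero_add, card_filter,
      Fintype.sum_prod_type]
    exact sum_comm
  have hz1 : ∀ Z Y U, #(S U (Sum.inl Y) Z none) = 0 := fun Z Y U => by cases U <;> rfl
  refine ⟨{
    cs := Sum.isLeft
    hc := fun Z s => match s with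
      | true => Sum.inl (xr Z)
      | false => Sum.inr Z
    S := S
    a := a
    b := b
    δ := δ
    t := t
    c := fun Z U => match U with
      | Sum.inl X => #{v | RX Z (X, v)}
      | Sum.inr Y => #{v | CY Z (Y, v)}
    hc_side := fun Z s => by cases s <;> rfl
    disj := ?_
    c_le := fun Z U => by cases U <;> exact (card_le_univ _).trans (ZMod.card Q).le
    zoneC := ?_
    zoneR := ?_
    supp := ?_
    mgC := ?_
    mgR := ?_
    tot := ?_ }, rfl, rfl, rfl, rfl, rfl⟩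
  · rintro (X | X) (Y | Y) Z o Z' o' v h1 h2 h h' <;> simp only [S, notMem_empty] at h
    exact ex _ _ _ _ _ _ (mem_filter.1 h).2 (mem_filter.1 h').2
  · rintro Z (Y | Y) h
    · simp at h
    · refine Eq.trans ?_ ((dsg_prod _ _).trans (congrArg (· * _) (xc Z)))
      simp only [S, hT]
  · rintro Z (X | X) h
    · refine Eq.trans ?_ ((dsg_prod _ _).trans ((mul_comm _ _).trans (congrArg (· * _) (yc Z))))
      simp only [S, hF]
    · simp at h
  · rintro (X | X) (Y | Y) Z v h <;> simp only [S, notMem_empty] at h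
    have := ((hO _ _ _).1 (mem_filter.1 h).2).1
    exact ⟨rfl, rfl, fun e => this.1 (Sum.inl.inj e), fun e => this.2 (Sum.inr.inj e)⟩
  · rintro Z (Y | Y)
    · simp only [hz1, sum_const_zero, Nat.zero_le]
    · rw [hcol]
      exact dsg_mg (fun v' u => P Z none u (Y, v')) _ _
        (fun _ _ h => ((hW _ _ _).1 ((hO _ _ _).1 h).2).1) fun v' => le_trans
          (card_le_card (monotone_filter_right _ fun _ _ h => ((hO _ _ _).1 h).2)) (in_le Z _)
  · rintro Z (X | X)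
    · rw [hrow]
      refine dsg_mg (fun v w => P Z none (X, v) w) _ _ (fun v w h => ?_) fun v => le_trans
        (card_le_card (monotone_filter_right _ fun _ _ h => ((hO _ _ _).1 h).2)) (out_le Z _)
      simp only [hO, hW, hCY, hRX] at h ⊢
      omega
    · simp only [S, card_empty, sum_const_zero, Nat.zero_le]
  · intro Z
    have e0 : ∑ X, ∑ Y, #(S X Y Z none) =
        #{q : (Fin Lr × ZMod Q) × (Fin (2 * Lr) × ZMod Q) | P Z none q.1 q.2} := by
      rw [Fintype.sum_sum_type, ds_sum, Fintype.sum_prod_type]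
      simp only [hrow]
      simp only [S, card_empty, sum_const_zero, add_zero]
    have e2 : #{q : (Fin Lr × ZMod Q) × (Fin (2 * Lr) × ZMod Q) |
        q.1.1 = xr Z ∧ W Z q.1 q.2} ≤ Q * (2 * δ Z) := by
      rw [ds_sum, Fintype.sum_prod_type, sum_eq_single (xr Z) (fun Y _ hY => by simp [hY])
        (by simp)]
      refine le_trans (sum_le_card_nsmul _ _ (2 * δ Z) fun v _ => ?_) (by simp [ZMod.card])
      simpa using out_le Z (xr Z, v)
    have e3 : #{q : (Fin Lr × ZMod Q) × (Fin (2 * Lr) × ZMod Q) |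
        q.2.1 = Z ∧ W Z q.1 q.2} ≤ Q * δ Z := by
      rw [ds_sum', Fintype.sum_prod_type, sum_eq_single Z (fun Y _ hY => by simp [hY]) (by simp)]
      refine le_trans (sum_le_card_nsmul _ _ (δ Z) fun v _ => ?_) (by simp [ZMod.card])
      simpa using in_le Z (Z, v)
    have e5 : ({q | W Z q.1 q.2} : Finset ((Fin Lr × ZMod Q) × (Fin (2 * Lr) × ZMod Q))) ⊆
        (univ.filter fun q => P Z none q.1 q.2) ∪ (univ.filter fun q => q.1.1 = xr Z ∧ W Z q.1 q.2)
          ∪ (univ.filter fun q => q.2.1 = Z ∧ W Z q.1 q.2) := by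
      intro q hq
      simp only [mem_filter, mem_univ, true_and, mem_union] at hq ⊢
      by_cases h1 : q.1.1 = xr Z
      · exact Or.inl (Or.inr ⟨h1, hq⟩)
      by_cases h2 : q.2.1 = Z
      · exact Or.inr ⟨h2, hq⟩
      exact Or.inl (Or.inl ((hO _ _ _).2 ⟨⟨h1, h2⟩, hq⟩))
    have e6 := (card_le_card e5).trans ((card_union_le _ _).trans (add_le_add
      ((card_union_le _ _).trans (add_le_add le_rfl e2)) e3))
    rw [e0]
    by_cases hZ : t Z = 0
    · rw [hZ]
      simp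
    · have h1 := (ht Z).resolve_left hZ
      have h2 := hs Z Z.2
      rw [hN2, show (t Z + 7) * Q = 4 * Q + (t Z + 3) * Q by ring] at h1
      generalize t Z = t at h1 ⊢
      have h3 := habd Z
      have h4 := ds_ge (y Z) (yi Z) _ cy (yl Z) (k Z + 2 * b Z) ((t + 3) * Q) (by omega) (CY Z)
        fun w h h' => (hCY _ _).2 ⟨h, by omega⟩
      have e1 : (t + 3) * Q * δ Z ≤
          #{q : (Fin Lr × ZMod Q) × (Fin (2 * Lr) × ZMod Q) | W Z q.1 q.2} := by
        rw [ds_sum']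
        refine le_trans (Nat.mul_le_mul_right _ h4) ?_
        rw [card_filter, sum_mul]
        refine sum_le_sum fun w _ => ?_
        split_ifs with hw
        · rw [one_mul]
          exact in_ge Z w hw
        · simp
      have h5 : (t + 3) * Q * δ Z = δ Z * Q * t + Q * (2 * δ Z) + Q * δ Z := by ring
      omega

end Pool.Agent.Lib.MP_12a5fd_co.YU
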