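import Pool.Agent.Lib.MP_12a5fd_co.BT.Plan

/-! Classes of trees inside buckets, and their row clusters. -/

set_option autoImplicit false

namespace Pool.Agent.Lib.MP_12a5fd_co.YU

open Finset Pool.Agent.Lib.MP_2b1ae8_co.AT Pool.Agent.Lib.MP_12a5fd_co.BT

theorem exists_plan3 {I Ty : Type} [Fintype I] [DecidableEq I] [Fintype Ty] [DecidableEq Ty]
    (ty : I → Ty) (S NB M cap wd Lr : ℕ) (pos : I → Fin S) (bin : Fin S → Fin NB)
    (hcap : 0 < cap) (hLr : 0 < Lr) (hwd : ∀ p, #{i | pos i = p} ≤ wd)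
    (hM : wd + cap * Fintype.card Ty ≤ cap * M) (hS : S * M ≤ 2 * Lr) (hN : NB * M ≤ Lr) :
    ∃ (cl : I → Fin (2 * Lr)) (xr : Fin (2 * Lr) → Fin Lr),
      (∀ i j, cl i = cl j → ty i = ty j) ∧ (∀ Z, #{i | cl i = Z} ≤ cap) ∧
      (∀ i, (cl i : ℕ) / M = pos i) ∧
      ∀ (A : Fin (2 * Lr) → ℕ) (W : Fin S → ℕ) (Q : ℕ),
        (∀ Z, A Z = 0 ∨ ∃ i, cl i = Z ∧ A Z ≤ W (pos i)) →
        (∀ x, ∑ p with bin p = x, W p ≤ Q) → ∀ X, ∑ Z with xr Z = X, A Z ≤ Q := by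
  classical
  rcases isEmpty_or_nonempty I with hI | ⟨⟨i0⟩⟩
  · refine ⟨fun i => hI.elim i, fun _ => ⟨0, hLr⟩, fun i => hI.elim i, fun Z => by simp,
      fun i => hI.elim i, fun A W Q hA _ X => ?_⟩
    rw [sum_eq_zero fun Z _ => (hA Z).resolve_right fun ⟨i, _⟩ => hI.elim i]
    exact Nat.zero_le _
  have hG0 : 0 < M := by
    have h1 := hwd (pos i0)
    have h2 : 0 < #{i | pos i = pos i0} := card_pos.2 ⟨i0, by simp⟩
    exact Nat.pos_of_mul_pos_left (a := cap) (by omega)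
  have : Nonempty (Fin M) := ⟨⟨0, hG0⟩⟩
  obtain ⟨ρ, ρ1, ρ2⟩ := hub_rank (univ : Finset I) fun i => (pos i, ty i)
  let gr : I → Ty × ℕ := fun i => (ty i, ρ i / cap)
  have hg : ∀ p, ∃ f : Ty × ℕ → Fin M, ∀ a ∈ ({i | pos i = p} : Finset I).image gr,
      ∀ b ∈ ({i | pos i = p} : Finset I).image gr, f a = f b → a = b := fun p => by
    refine hub_inj _ ?_
    have h1 := plan_grp ({i | pos i = p} : Finset I) ty ρ (fun x hx => (ρ1 x (mem_univ _)).trans_le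
      (card_le_card fun y hy => by
        simp only [mem_filter, mem_univ, true_and, Prod.mk.injEq] at hy hx ⊢
        exact ⟨hy.1.trans hx, hy.2⟩)) cap fun _ => True
    simp only [filter_true] at h1
    rw [Fintype.card_fin]
    have := hwd p
    exact Nat.le_of_mul_le_mul_left (h1.trans (by omega)) hcap
  choose gx hgx using hg
  have blk : ∀ (n : ℕ) (x : Fin n) (r : ℕ), r < M → x * M + r < n * M := fun n x r hr => by
    have h2 : ((x : ℕ) + 1) * M ≤ n * M := Nat.mul_le_mul_right _ x.2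
    rw [add_mul] at h2
    omega
  have dm : ∀ x r : ℕ, r < M → (x * M + r) / M = x ∧ (x * M + r) % M = r := fun x r hr =>
    ⟨by rw [add_comm, Nat.add_mul_div_right _ _ hG0, Nat.div_eq_of_lt hr, zero_add],
      by rw [add_comm, Nat.add_mul_mod_self_right, Nat.mod_eq_of_lt hr]⟩
  let cl : I → Fin (2 * Lr) := fun i =>
    ⟨pos i * M + gx (pos i) (gr i), (blk S _ _ (gx (pos i) (gr i)).2).trans_le hS⟩
  have hdiv : ∀ i, (cl i : ℕ) / M = pos i := fun i => (dm _ _ (gx (pos i) (gr i)).2).1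
  have hkey : ∀ i j, cl i = cl j → pos i = pos j ∧ gr i = gr j := fun i j h => by
    have h1 : pos i = pos j := Fin.ext (by rw [← hdiv i, ← hdiv j, h])
    have h2 : pos i * M + gx (pos i) (gr i) = pos j * M + gx (pos j) (gr j) := congrArg Fin.val h
    rw [h1] at h2
    exact ⟨h1, hgx (pos j) _ (mem_image_of_mem _ (by simpa using h1)) _
      (mem_image_of_mem _ (by simp)) (Fin.ext (by omega))⟩
  obtain ⟨pz, hpz⟩ : ∃ pz : Fin (2 * Lr) → Fin S, ∀ i, pz (cl i) = pos i :=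
    ⟨fun Z => if h : (Z : ℕ) / M < S then ⟨_, h⟩ else pos i0, fun i => by
      have h : (cl i : ℕ) / M < S := by rw [hdiv]; exact (pos i).2
      simp only [dif_pos h]
      exact Fin.ext (hdiv i)⟩
  let xr : Fin (2 * Lr) → Fin Lr := fun Z =>
    ⟨bin (pz Z) * M + Z % M, (blk NB _ _ (Nat.mod_lt _ hG0)).trans_le hN⟩
  have hxr : ∀ Z Z', xr Z = xr Z' → bin (pz Z) = bin (pz Z') ∧ (Z : ℕ) % M = Z' % M := by
    intro Z Z' h
    have h1 : bin (pz Z) * M + Z % M = bin (pz Z') * M + Z' % M := congrArg Fin.val h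
    have h2 := dm (bin (pz Z)) _ (Nat.mod_lt Z hG0)
    have h3 := dm (bin (pz Z')) _ (Nat.mod_lt Z' hG0)
    rw [h1] at h2
    exact ⟨Fin.ext (h2.1.symm.trans h3.1), h2.2.symm.trans h3.2⟩
  refine ⟨cl, xr, fun i j h => congrArg Prod.fst (hkey i j h).2, fun Z => ?_, hdiv,
    fun A W Q hA hW X => ?_⟩
  · rw [← card_range cap]
    refine card_le_card_of_injOn (fun i => ρ i % cap)
      (fun i _ => mem_coe.2 (mem_range.2 (Nat.mod_lt _ hcap))) fun i hi j hj h => ?_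
    obtain ⟨h1, h2⟩ := hkey i j ((mem_filter.1 hi).2.trans (mem_filter.1 hj).2.symm)
    refine ρ2 _ (mem_univ _) _ (mem_univ _) (Prod.ext h1 (congrArg Prod.fst h2)) ?_
    have h4 : ρ i / cap = ρ j / cap := congrArg Prod.snd h2
    rw [← Nat.div_add_mod (ρ i) cap, ← Nat.div_add_mod (ρ j) cap, h4]
    exact congrArg _ h
  · rw [← sum_filter_ne_zero]
    set B : Finset (Fin (2 * Lr)) := ({Z | xr Z = X} : Finset _).filter fun Z => A Z ≠ 0 with hB
    have hmem : ∀ Z ∈ B, xr Z = X ∧ ∃ i, cl i = Z ∧ A Z ≤ W (pos i) := fun Z hZ =>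
      ⟨(mem_filter.1 (mem_filter.1 hZ).1).2, (hA Z).resolve_left (mem_filter.1 hZ).2⟩
    rcases B.eq_empty_or_nonempty with h0 | ⟨Z0, h0⟩
    · rw [h0, sum_empty]
      exact Nat.zero_le _
    have hinj : ∀ Z ∈ B, ∀ Z' ∈ B, pz Z = pz Z' → Z = Z' := fun Z hZ Z' hZ' h => by
      obtain ⟨h1, i, rfl, -⟩ := hmem Z hZ
      obtain ⟨h2, j, rfl, -⟩ := hmem Z' hZ'
      rw [hpz, hpz] at h
      have h3 := (hxr _ _ (h1.trans h2.symm)).2
      refine Fin.ext ?_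
      rw [← Nat.div_add_mod (cl i) M, ← Nat.div_add_mod (cl j) M, hdiv, hdiv, h, h3]
    calc ∑ Z ∈ B, A Z ≤ ∑ Z ∈ B, W (pz Z) := sum_le_sum fun Z hZ => by
          obtain ⟨-, i, rfl, h⟩ := hmem Z hZ
          rwa [hpz]
      _ = ∑ p ∈ B.image pz, W p := (sum_image hinj).symm
      _ ≤ ∑ p with bin p = bin (pz Z0), W p := sum_le_sum_of_subset fun p hp => by
          obtain ⟨Z, hZ, rfl⟩ := mem_image.1 hp
          exact mem_filter.2 ⟨mem_univ _, (hxr _ _ ((hmem Z hZ).1.trans (hmem Z0 h0).1.symm)).1⟩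
      _ ≤ Q := hW _

end Pool.Agent.Lib.MP_12a5fd_co.YU
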