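import Pool.Agent.Lib.MP_12a5fd_co.BT.Plan

/-! Types of trees for thin layers. -/

set_option autoImplicit false

namespace Pool.Agent.Lib.MP_12a5fd_co.YU

theorem exists_type3 (Q s nE nE' nS nS' nI nO nO' : ℕ) (hQ : 9 ≤ Q) (hs : 0 < s)
    (h1 : nE + nE' + nS + nS' + nI ≤ s) (h2 : nE + nO' ≤ s) (h3 : 2 * (nE' + nO) ≤ s) :
    ∃ a b δ jI jR jC : ℕ, a + b + δ ≤ Q ∧
      (a + b + δ) * s ≤ (Q - 8) * (nE + nE' + nS + nS' + nI) + 9 * s ∧
      2 * b ≤ Q ∧ 0 < δ ∧ 0 < jI ∧ 0 < jR ∧ 0 < jC ∧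
      jI + jR + jC ≤ Q ∧ (Q - 8) * nE + s ≤ a * s ∧ a * s ≤ (Q - 8) * nE + 2 * s ∧
      (Q - 8) * nO' + (a + 1) * s ≤ Q * s ∧ (Q - 8) * nE' + s ≤ b * s ∧
      2 * ((Q - 8) * nO) + (2 * b + 1) * s ≤ Q * s ∧
      (Q - 8) * Q * nI + δ * s ≤ δ * jI * s ∧ (Q - 8) * Q * nS ≤ δ * jR * s ∧
      (Q - 8) * Q * nS' ≤ δ * jC * s := by
  obtain ⟨P, rfl⟩ : ∃ P, Q = P + 8 := ⟨Q - 8, by omega⟩
  rw [Nat.add_sub_cancel]
  have dv : ∀ n d : ℕ, 0 < d → ∃ x, x * d ≤ n ∧ n < x * d + d := fun n d hd =>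
    ⟨n / d, Nat.div_mul_le_self n d, Nat.lt_div_mul_add hd⟩
  obtain ⟨α, a1, a2⟩ := dv (P * nE) s hs
  obtain ⟨β, b1, b2⟩ := dv (P * nE') s hs
  obtain ⟨d, d1, d2⟩ := dv (P * nS + P * nS' + P * nI) s hs
  have e1 := Nat.mul_le_mul_left P h1
  have e2 := Nat.mul_le_mul_left P h2
  have e3 := Nat.mul_le_mul_left P h3
  simp only [mul_add, mul_left_comm P 2] at e1 e2 e3
  have hab : α + β + d ≤ P := Nat.le_of_mul_le_mul_right (by rw [add_mul, add_mul]; omega) hs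
  have hb : 2 * β ≤ P := Nat.le_of_mul_le_mul_right (by rw [mul_assoc]; omega) hs
  obtain ⟨δ, hδ1, hδ2, hδ3⟩ : ∃ δ, α + β + δ ≤ P + 4 ∧ δ ≤ d + 5 ∧
      (α + β + δ = P + 4 ∨ δ = d + 5) :=
    ⟨min (P + 4 - (α + β)) (d + 5), by omega, by omega, by omega⟩
  have hδe : δ * s ≤ d * s + 5 * s := by
    rw [← add_mul]
    exact Nat.mul_le_mul_right s hδ2
  have hδs : 4 * s + (P * nS + P * nS' + P * nI) ≤ δ * s := by
    rcases hδ3 with h | h
    · have := congrArg (· * s) h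
      simp only [add_mul] at this
      omega
    · rw [h, add_mul]
      omega
  have hp : 0 < δ * s := by omega
  obtain ⟨x, x1, x2⟩ := dv (P * (P + 8) * nI) _ hp
  obtain ⟨y, y1, y2⟩ := dv (P * (P + 8) * nS) _ hp
  obtain ⟨z, z1, z2⟩ := dv (P * (P + 8) * nS') _ hp
  have hxyz : x + y + z + 4 ≤ P + 8 := by
    refine Nat.le_of_mul_le_mul_right ?_ hp
    have f1 := Nat.mul_le_mul_left (P + 8) hδs
    have f2 : δ * s ≤ (P + 8) * s := Nat.mul_le_mul_right s (by omega)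
    have f3 : (P + 8) * (4 * s + (P * nS + P * nS' + P * nI)) = 4 * ((P + 8) * s) +
      (P * (P + 8) * nS + P * (P + 8) * nS' + P * (P + 8) * nI) := by ring
    rw [add_mul (x + y + z), add_mul (x + y), add_mul x]
    omega
  have g : ∀ u v, δ * (u + v) * s = u * (δ * s) + v * (δ * s) := fun u v => by ring
  refine ⟨α + 2, β + 2, δ, x + 2, y + 1, z + 1, by omega, ?_, by omega, by omega,
    by omega, by omega, by omega, by omega, ?_, ?_, ?_, ?_, ?_, ?_, ?_, ?_⟩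
  · simp only [add_mul, mul_add]; omega
  · rw [add_mul]; omega
  · rw [add_mul]; omega
  · simp only [add_mul]; omega
  · rw [add_mul]; omega
  · simp only [add_mul, mul_add, mul_assoc]; omega
  · rw [g]; omega
  · rw [g]; omega
  · rw [g]; omega

end Pool.Agent.Lib.MP_12a5fd_co.YU
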