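import Mathlib

/-! The running total of the peeled thickness. -/

set_option autoImplicit false

namespace Pool.Agent.Lib.MP_12a5fd_co.YU

open Finset

theorem sum_div_block (M : ℕ) (hM : 0 < M) (θ : ℕ → ℕ) (r : ℕ) :
    ∑ i ∈ range (r * M), θ (i / M) = M * ∑ j ∈ range r, θ j := by
  induction r with
  | zero => simp
  | succ r ih =>
    rw [add_mul, one_mul, sum_range_add, ih, sum_range_succ, mul_add]
    congr 1
    rw [sum_congr rfl (g := fun _ => θ r) fun i hi => by
      rw [add_comm, Nat.add_mul_div_right _ _ hM, Nat.div_eq_of_lt (mem_range.1 hi), zero_add]]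
    simp

theorem exists_U (Q M S : ℕ) (hM : 0 < M) (Θ : Fin S → ℕ) : ∃ U : ℕ → ℕ,
    (∀ Z x, x ≤ Q → (x = 0 ∨ ∃ p : Fin S, Z / M = p ∧ x ≤ Θ p) → U Z + 2 * x ≤ U (Z + 2)) ∧
    ∀ Z (p : Fin S), Z / M = p → U Z ≤ M * ∑ p' with p' ≤ p, Θ p' + S * Q := by
  let θ : ℕ → ℕ := fun p => if h : p < S then Θ ⟨p, h⟩ else 0
  have hθ : ∀ p : Fin S, θ p = Θ p := fun p => dif_pos p.2
  refine ⟨fun n => ∑ i ∈ range n, θ (i / M) + Q * (n / M), fun Z x hx h => ?_, fun Z p h => ?_⟩
  · have h1 : Z / M ≤ (Z + 1) / M := Nat.div_le_div_right (by omega)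
    have h2 : (Z + 1) / M ≤ (Z + 2) / M := Nat.div_le_div_right (by omega)
    simp only [sum_range_succ]
    rcases h with rfl | ⟨p, hp, hx'⟩
    · have := Nat.mul_le_mul_left Q (h1.trans h2)
      omega
    · have h3 : x ≤ θ (Z / M) := by rw [hp, hθ]; exact hx'
      rcases h1.eq_or_lt with e | e
      · have := Nat.mul_le_mul_left Q (h1.trans h2)
        rw [← e]
        omega
      · have := Nat.mul_le_mul_left Q (le_trans (Nat.succ_le_of_lt e) h2)
        rw [Nat.mul_succ] at this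
        omega
  · have h1 : Z ≤ (p + 1) * M := by
      rw [← h, mul_comm]
      exact (Nat.lt_mul_div_succ Z hM).le
    have h2 : ∑ i ∈ range Z, θ (i / M) ≤ M * ∑ j ∈ range (p + 1), θ j := by
      rw [← sum_div_block M hM]
      exact sum_le_sum_of_subset (range_mono h1)
    have h3 : ∑ j ∈ range (p + 1), θ j = ∑ p' with p' ≤ p, Θ p' := by
      symm
      refine sum_bij (fun p' _ => p'.1) (fun p' hp' => ?_) (fun _ _ _ _ e => Fin.ext e)
        (fun j hj => ?_) fun p' _ => (hθ p').symm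
      · exact mem_range.2 (Nat.lt_succ_of_le (mem_filter.1 hp').2)
      · have h4 := Nat.le_of_lt_succ (mem_range.1 hj)
        exact ⟨⟨j, h4.trans_lt p.2⟩, mem_filter.2 ⟨mem_univ _, h4⟩, rfl⟩
    have h4 : Q * (Z / M) ≤ S * Q := by
      rw [h, mul_comm]
      exact Nat.mul_le_mul_right _ p.2.le
    rw [← h3]
    dsimp only
    omega

end Pool.Agent.Lib.MP_12a5fd_co.YU
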