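import Pool.Agent.Lib.MP_12a5fd_co.BT.Main
import Pool.Agent.Lib.MP_12a5fd_co.YU.Design3
import Pool.Agent.Lib.MP_12a5fd_co.YU.Type3
import Pool.Agent.Lib.MP_12a5fd_co.YU.Plan3
import Pool.Agent.Lib.MP_12a5fd_co.YU.Usum

/-! Packing a forest with thin layers, a free order of the classes and many guests per row
cluster. -/

set_option autoImplicit false
set_option synthInstance.maxSize 4000

namespace Pool.Agent.Lib.MP_12a5fd_co.YU

open Finset Pool.Agent.Lib.MP_2b1ae8_co.AT Pool.Agent.Lib.MP_12a5fd_co.BT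

theorem pack_forest3 {V I : Type} [Fintype V] [DecidableEq V] [Fintype I] [DecidableEq I]
    {k K D g Q Lr m q q' ζ lam e η η' θ Mh n0 r1 Mk w wd : ℕ} [NeZero K] [NeZero Q] [NeZero m]
    (H : Num2 k K D g Q Lr m q q' ζ lam e η η' θ Mh n0 r1 Mk w wd
      (Fintype.card (Option Bool × Shp K))
      (Fintype.card (Pn (Fin (2 * Lr)) (Shp K) (Q ^ 2 * mP Q Lr m + 2)) *
        Fintype.card (Tn (GG Q) (Fin Lr ⊕ Fin (2 * Lr)) m)))
    (F : GF V I K D g) (sd : V → Bool) (hsd : ∀ v, v ∉ F.R → sd (F.par v) ≠ sd v)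
    (hI : Fintype.card I ≤ k + 1) (n : I → ℕ) (hnk : ∀ i, n i ≤ k)
    (hsz : ∀ i, #{v | F.tr v = i} ≤ n i)
    (S NB Mc wd' : ℕ) (pos : I → Fin S) (bin : Fin S → Fin NB) (tp Θ W : Fin S → ℕ)
    (hwd : ∀ p, #{i | pos i = p} ≤ wd')
    (hM : wd' + capN Q Lr m q' * (Q + 1) ^ 6 ≤ capN Q Lr m q' * Mc) (hS : S * Mc ≤ 2 * Lr)
    (hN : NB * Mc ≤ Lr) (htp : ∀ p, 0 < tp p)
    (hside : ∀ p, (tp p + 7 + S) * Q + Mc * ∑ p' with p' ≤ p, Θ p' ≤ 2 * Lr * Q)
    (hbin : ∀ x, ∑ p with bin p = x, W p ≤ Q)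
    (h1 : ∀ i, n i ≤ capN Q Lr m q' * tp (pos i))
    (h2 : ∀ i, 2 * #{v | F.tr v = i ∧ sd v = true} ≤ capN Q Lr m q' * tp (pos i))
    (h3 : ∀ i, Q * n i + 9 * (capN Q Lr m q' * tp (pos i)) ≤
      Θ (pos i) * (capN Q Lr m q' * tp (pos i)))
    (h4 : ∀ i, Q * #{v | F.tr v = i ∧ sd v = false} + 2 * (capN Q Lr m q' * tp (pos i)) ≤
      W (pos i) * (capN Q Lr m q' * tp (pos i))) :
    ∃ f : V → (Bk (GG Q) (Fin Lr ⊕ Fin (2 * Lr)) m × Fin q) ⊕ (Bool × Fin w),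
      (∀ u v, F.tr u = F.tr v → f u = f v → u = v) ∧
      (∀ u v, u ∉ F.R → v ∉ F.R → s(f u, f (F.par u)) = s(f v, f (F.par v)) →
        F.tr u = F.tr v) ∧
      ∀ v, (f v).elim (fun x => x.1.1.isLeft) Prod.fst = sd v := by
  have hQ := H.hQ
  have hL := H.hL
  have : NeZero q := ⟨by have := H.hq; omega⟩
  have : NeZero Lr := ⟨by omega⟩
  have hCl : Fintype.card (Fin Lr ⊕ Fin (2 * Lr)) = 3 * Lr := by simp; omega
  obtain ⟨P⟩ := exists_LS1 F sd
  have hm'0 : 0 < mP Q Lr m := lt_of_lt_of_le (by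
    have := Fintype.card_pos (α := Option Bool × Shp K)
    have := H.hK
    positivity) H.hlb
  have hcap0 : 0 < capN Q Lr m q' := by
    have := H.hq'
    have : 0 < Q - 8 := by omega
    have : 0 < Q - 1 := by omega
    unfold capN
    positivity
  set cap := capN Q Lr m q' with hcap
  have hsz' : ∀ i, #{v | F.tr v = i} ≤ k := fun i => (hsz i).trans (hnk i)
  have hLa : ∀ i, #{v ∈ F.La | F.tr v = i} ≤ lam := fun i => Nat.le_of_mul_le_mul_left
    ((F.card_La i).trans ((Nat.mul_le_mul_left _ (hsz' i)).trans H.hlam)) H.hK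
  have hZ : ∀ i, #{v ∈ F.Z | F.tr v = i} ≤ ζ := fun i => Nat.le_of_mul_le_mul_left
    ((F.card_Z i).trans ((Nat.add_le_add_right (Nat.mul_le_mul_left _ (hsz' i)) _).trans H.hζ))
    (Nat.mul_pos H.hK H.hD)
  have hE : ∀ i, #{v ∈ F.E | F.tr v = i} ≤ e := fun i => Nat.le_of_mul_le_mul_left
    ((F.card_E i).trans ((Nat.add_le_add_right (Nat.mul_le_mul_left _ (hsz' i)) _).trans H.he))
    H.hg
  let s : I → ℕ := fun i => cap * tp (pos i)
  have hs1 : ∀ i, n i ≤ s i := h1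
  have hs0 : ∀ i, 0 < s i := fun i => Nat.mul_pos hcap0 (htp _)
  have hc := fun i s => cnt_side_le P i s
  choose a b δ jI jR jC t1 t0 t2 t3 t4 t5 t6 t7 u1 u2 u3 u4 u5 u6 u7 u8 using fun i =>
    exists_type3 Q (s i) _ _ _ _ _ _ _ hQ (hs0 i)
      ((cnt_edges_le P i).trans ((hsz i).trans (hs1 i)))
      ((hc i false).trans ((card_le_card fun v hv => by simp_all).trans ((hsz i).trans (hs1 i))))
      ((Nat.mul_le_mul_left 2 (hc i true)).trans (h2 i))
  let ty : I → Fin (Q + 1) × Fin (Q + 1) × Fin (Q + 1) × Fin (Q + 1) × Fin (Q + 1) × Fin (Q + 1) :=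
    fun i => (⟨a i, by have := t1 i; omega⟩, ⟨b i, by have := t1 i; omega⟩,
      ⟨δ i, by have := t1 i; omega⟩, ⟨jI i, by have := t7 i; omega⟩,
      ⟨jR i, by have := t7 i; omega⟩, ⟨jC i, by have := t7 i; omega⟩)
  have hTy : Fintype.card (Fin (Q + 1) × Fin (Q + 1) × Fin (Q + 1) × Fin (Q + 1) × Fin (Q + 1) ×
      Fin (Q + 1)) = (Q + 1) ^ 6 := by simp; ring
  obtain ⟨cl, xr, c1, c3, c4, c5⟩ := exists_plan3 ty S NB Mc cap wd' Lr pos bin hcap0 (by omega) hwd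
    (by rw [hTy]; exact hM) hS hN
  have hMc : 0 < Mc := by
    rcases Nat.eq_zero_or_pos Mc with h | h
    · exfalso
      rw [h, mul_zero] at hM
      have : 0 < cap * (Q + 1) ^ 6 := by positivity
      omega
    · exact h
  have c1' : ∀ i j, cl i = cl j → a i = a j ∧ b i = b j ∧ δ i = δ j ∧ jI i = jI j ∧ jR i = jR j ∧
      jC i = jC j := fun i j h => by
    have := c1 i j h
    simpa only [ty, Prod.mk.injEq, Fin.mk.injEq] using this
  have lift : ∀ x : I → ℕ, (∀ i j, cl i = cl j → x i = x j) → ∃ y : Fin (2 * Lr) → ℕ,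
      (∀ i, y (cl i) = x i) ∧ ∀ Z, (∀ i, cl i ≠ Z) → y Z = 0 := fun x hx => by
    classical
    refine ⟨fun Z => if h : ∃ i, cl i = Z then x h.choose else 0, fun i => ?_, fun Z h => ?_⟩
    · have h : ∃ j, cl j = cl i := ⟨i, rfl⟩
      simp only [dif_pos h]
      exact hx _ _ h.choose_spec
    · exact dif_neg fun ⟨i, hi⟩ => h i hi
  obtain ⟨aZ, e1, z1⟩ := lift a fun i j h => (c1' i j h).1
  obtain ⟨bZ, e2, z2⟩ := lift b fun i j h => (c1' i j h).2.1
  obtain ⟨dZ, e0, z0⟩ := lift δ fun i j h => (c1' i j h).2.2.1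
  obtain ⟨iZ, e3, z3⟩ := lift jI fun i j h => (c1' i j h).2.2.2.1
  obtain ⟨rZ, e4', z4⟩ := lift jR fun i j h => (c1' i j h).2.2.2.2.1
  obtain ⟨cZ, e5', z5⟩ := lift jC fun i j h => (c1' i j h).2.2.2.2.2
  obtain ⟨tZ, e6, z6⟩ := lift (fun i => tp (pos i)) fun i j h => by
    have h1 := c4 i
    rw [h, c4 j] at h1
    rw [Fin.ext h1]
  let sZ : Fin (2 * Lr) → Bool → ℕ := fun Z o => if o = true then rZ Z else cZ Z
  have e4 : ∀ i, sZ (cl i) true = jR i := fun i => by simp [sZ, e4']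
  have e5 : ∀ i, sZ (cl i) false = jC i := fun i => by simp [sZ, e5']
  have cs : ∀ Z, (∃ i, cl i = Z) ∨ ∀ i, cl i ≠ Z := fun Z => by
    by_cases h : ∃ i, cl i = Z
    · exact Or.inl h
    · exact Or.inr fun i hi => h ⟨i, hi⟩
  have hZ1 : ∀ Z, aZ Z + bZ Z + dZ Z ≤ Q ∧ 2 * bZ Z ≤ Q ∧ iZ Z + sZ Z true + sZ Z false ≤ Q := by
    intro Z
    rcases cs Z with ⟨i, rfl⟩ | h
    · rw [e1, e2, e0, e3, e4, e5]
      exact ⟨t1 i, t2 i, t7 i⟩
    · simp [sZ, z1 Z h, z2 Z h, z0 Z h, z3 Z h, z4 Z h, z5 Z h]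
  have ha : ∀ i, a i ≤ W (pos i) := fun i => by
    refine Nat.le_of_mul_le_mul_right ((u2 i).trans (le_trans ?_ (h4 i))) (hs0 i)
    exact Nat.add_le_add_right (Nat.mul_le_mul (Nat.sub_le _ _)
      ((Nat.le_add_right _ _).trans (hc i false))) _
  have hθ : ∀ i, a i + b i + δ i ≤ Θ (pos i) := fun i => by
    refine Nat.le_of_mul_le_mul_right ((t0 i).trans (le_trans ?_ (h3 i))) (hs0 i)
    exact Nat.add_le_add_right (Nat.mul_le_mul (Nat.sub_le _ _)
      ((cnt_edges_le P i).trans (hsz i))) _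
  obtain ⟨U, U1, U2⟩ := exists_U Q Mc S hMc Θ
  obtain ⟨T, d1, d2, d3, d4, d5⟩ := design3 Q Lr aZ bZ dZ tZ xr U
    (fun Z => (hZ1 Z).1) (fun Z => (hZ1 Z).2.1)
    (c5 aZ W Q (fun Z => by
      rcases cs Z with ⟨i, rfl⟩ | h
      · exact Or.inr ⟨i, rfl, e1 i ▸ ha i⟩
      · exact Or.inl (z1 Z h)) hbin)
    (fun Z => U1 Z _ (hZ1 Z).1 (by
      rcases cs Z with ⟨i, rfl⟩ | h
      · exact Or.inr ⟨pos i, c4 i, by rw [e1, e2, e0]; exact hθ i⟩
      · exact Or.inl (by rw [z1 Z h, z2 Z h, z0 Z h])))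
    (fun Z => by
      rcases cs Z with ⟨i, rfl⟩ | h
      · refine Or.inr ?_
        have h5 := U2 (cl i) (pos i) (c4 i)
        have h6 := hside (pos i)
        rw [e6]
        rw [add_mul (tp (pos i) + 7)] at h6
        omega
      · exact Or.inl (z6 Z h))
  have f1 : ∀ i, T.a (cl i) = a i := fun i => by rw [d2, e1]
  have f2 : ∀ i, T.b (cl i) = b i := fun i => by rw [d3, e2]
  have f3 : ∀ i, T.δ (cl i) = δ i := fun i => by rw [d4, e0]
  have hst : ∀ i, s i ≤ cap * T.t (cl i) := fun i => by rw [d5, e6]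
  have ht : ∀ i, 0 < T.t (cl i) := fun i =>
    Nat.pos_of_mul_pos_left ((hs0 i).trans_le (hst i))
  let St : I → ℕ := fun i => T.t (cl i) * (Q ^ 6 * (Q - 1) ^ 2 * q' * mP Q Lr m)
  have hSt : ∀ i, Q * s i ≤ (Q - 8) * St i := fun i =>
    (Nat.mul_le_mul_left _ (hst i)).trans (le_of_eq (by simp only [St, hcap, capN]; ring))
  have sc := fun i x y z => scale_le (Q - 8) Q (s i) (St i) x y z (by omega) (hs0 i) (hSt i)
  obtain ⟨kn, ⟨N⟩, n1, n2, n3⟩ := exists_kinds P T cl k q' hsd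
    (fun i => lt_of_lt_of_le (by have := t3 i; have := ht i; rw [f3]; positivity) (T.tot (cl i)))
    hsz' H.hbal
  obtain ⟨M, hMM⟩ := exists_MS2 (m := m) (shD K) T cl iZ sZ (P.ext (mo F)).nn (P.ext (ko F kn)).nn
    (mP Q Lr m) q q' n0 r1 Mk cap _ ((D + 1) * lam) St (by omega) (by omega) (hCl ▸ H.hm)
    (by rw [hCl, mP]) H.hq' rfl H.hlb (hCl ▸ H.hcap) (by have := H.hfree; omega)
    (le_trans (by gcongr) (hCl ▸ H.hr1))
    (le_trans (by
      rw [hCl, show 2 * (3 * Lr) ^ 2 = 18 * Lr ^ 2 by ring]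
      gcongr) (hCl ▸ H.hMk)) c3
    (fun Z => (hZ1 Z).2.2) (fun i => e3 i ▸ t4 i)
    (fun i o => by
      cases o
      · exact e5 i ▸ t6 i
      · exact e4 i ▸ t5 i)
    (fun i => f3 i ▸ t3 i) (fun i => by have := t1 i; rw [f3]; omega) ht (fun _ => rfl)
    (fun i l => by
      refine (nn_le _ i l).trans ((hsz i).trans ((hs1 i).trans ?_))
      exact Nat.le_of_mul_le_mul_left ((hSt i).trans (Nat.mul_le_mul_right _ (Nat.sub_le _ _)))
        (by omega))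
    (fun i => by simpa only [one_mul, f1] using sc i _ 1 _ (by simpa only [one_mul] using u1 i))
    (fun i => by simpa only [one_mul, f2] using sc i _ 1 _ (by simpa only [one_mul] using u4 i))
    (fun i => f1 i ▸ sc i _ _ _ (u3 i))
    (fun i => by
      have h7 := u5 i
      rw [mul_left_comm 2 (Q - 8)] at h7
      have := sc i _ _ _ h7
      rwa [mul_left_comm Q 2, ← f2] at this)
    (fun i => by
      rw [f3, e3, mul_assoc]
      exact sc i _ _ _ (by rw [← mul_assoc]; exact u6 i))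
    (fun i o => by
      rw [f3, mul_assoc]
      cases o
      · simpa only [zero_mul, add_zero, e5] using sc i _ 0 _
          (by rw [← mul_assoc, zero_mul, add_zero]; exact u8 i)
      · simpa only [zero_mul, add_zero, e4] using sc i _ 0 _
          (by rw [← mul_assoc, zero_mul, add_zero]; exact u7 i))
    (fun i => (cnt_nn _ i _).trans_le ((P.cnt_ma i).trans (Nat.mul_le_mul_left _ (hLa i))))
    n1 n2 n3
  have hB : Fintype.card (Bk (GG Q) (Fin Lr ⊕ Fin (2 * Lr)) m) =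
      3 * Lr * (Q ^ 4) ^ (3 * Lr) * m := by
    rw [Fintype.card_prod, Fintype.card_prod, Fintype.card_pi, prod_const, card_univ, hCl, card_GG,
      Fintype.card_fin, mul_assoc (3 * Lr)]
  have hH : Fintype.card (Fin (2 * Lr) × Bool × Bool) = 8 * Lr := by simp; omega
  have : DecidableEq (Option (Knd (Fin Lr ⊕ Fin (2 * Lr)) Q) × Shp K) := Classical.decEq _
  obtain ⟨f, g1, g2, g3⟩ := micro2 (P.ext (ko F kn)) N M ζ lam e η η' θ Mh w hsd hZ hLa hE H.hη
    H.hη' H.hn0 H.hM1 H.hM2 H.hM3 (by rw [hB, hH]; exact H.hroom) (by rw [hB]; exact H.hθ)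
    (by rw [hH]; exact H.hfree) (by rw [Fintype.card_prod]; exact H.hq) (by rw [hH]; exact H.hw)
  refine ⟨f, g1, g2, fun v => ?_⟩
  rw [← g3 v, hMM, d1]

end Pool.Agent.Lib.MP_12a5fd_co.YU
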