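import Pool.Agent.Lib.MP_12a5fd_co.BT.Defs

/-! Arithmetic of the thin layer design. -/

set_option autoImplicit false

namespace Pool.Agent.Lib.MP_12a5fd_co.YU

open Finset

lemma nums_key (r Q n z k σ t v s : ℕ) (hr : 0 < r) (c : ℕ) (hc : r * c ≤ n)
    (hn : 300 * n ≤ z * k) (h1 : z * 1000000 * 1000000 ≤ r * (300 * σ * t))
    (hv : t * Q ≤ 1000000 * v) (hs : σ * k ≤ 1000000 * s) : Q * c ≤ v * s := by
  refine Nat.le_of_mul_le_mul_left (c := r * (300 * 1000000 * 1000000)) ?_ (by positivity)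
  calc r * (300 * 1000000 * 1000000) * (Q * c)
      = 1000000 * 1000000 * Q * (300 * (r * c)) := by ring
    _ ≤ 1000000 * 1000000 * Q * (300 * n) := by gcongr
    _ ≤ 1000000 * 1000000 * Q * (z * k) := by gcongr
    _ = z * 1000000 * 1000000 * (Q * k) := by ring
    _ ≤ r * (300 * σ * t) * (Q * k) := by gcongr
    _ = r * 300 * ((t * Q) * (σ * k)) := by ring
    _ ≤ r * 300 * ((1000000 * v) * (1000000 * s)) := by gcongr
    _ = _ := by ring

lemma nums_sum (A : Finset (Fin 271)) (f : Fin 271 → ℕ) (Q c : ℕ) :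
    1000000 * ∑ p ∈ A, (f p * Q / 1000000 + c) ≤ (∑ p ∈ A, f p) * Q + 271 * (1000000 * c) := by
  have h : #A ≤ 271 := (card_le_univ A).trans (by simp)
  rw [mul_sum, sum_mul]
  calc _ ≤ ∑ p ∈ A, (f p * Q + 1000000 * c) := sum_le_sum fun p _ => by omega
    _ = ∑ p ∈ A, f p * Q + #A * (1000000 * c) := by rw [sum_add_distrib, sum_const, smul_eq_mul]
    _ ≤ _ := by gcongr

theorem nums (sz sg th w : Fin 271 → ℕ) (lt : Fin 271 → Bool) (bin : Fin 271 → Fin 150)
    (c1 : ∀ p, (if lt p = true then 2 else 1) * sz p * 1000000 ≤ 300 * sg p)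
    (c2 : ∀ p, sz p * 1000000 * 1000000 ≤ 300 * sg p * th p)
    (c3 : ∀ p, sz p * 1000000 * 1000000 ≤ (if lt p = true then 2 else 1) * (300 * sg p * w p))
    (c4 : ∀ p, 300 * sg p + ∑ p' with p' ≤ p, th p' + 10000 ≤ 300 * 1000000)
    (c5 : ∀ x, ∑ p with bin p = x, w p + 2000 ≤ 1000000)
    (k Q cap Lr : ℕ) (hQ : 800000 ≤ Q) (hcap : 0 < cap)
    (hk : k + cap * (2 * ((Q + 1) ^ 5 * Q) ^ 2 + 8) ≤ cap * (2 * Lr)) :
    ∃ (M : ℕ) (tp Θ W : Fin 271 → ℕ),
      k / 300 + 1 + cap * (Q + 1) ^ 6 ≤ cap * M ∧ 271 * M ≤ 2 * Lr ∧ 150 * M ≤ Lr ∧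
      (∀ p, 0 < tp p) ∧
      (∀ p, (tp p + 7 + 271) * Q + M * ∑ p' with p' ≤ p, Θ p' ≤ 2 * Lr * Q) ∧
      (∀ x, ∑ p with bin p = x, W p ≤ Q) ∧
      ∀ p n, 300 * n ≤ sz p * k →
        (if lt p = true then 2 else 1) * n ≤ cap * tp p ∧
        Q * n + 9 * (cap * tp p) ≤ Θ p * (cap * tp p) ∧
        ∀ c, (if lt p = true then 2 else 1) * c ≤ n →
          Q * c + 2 * (cap * tp p) ≤ W p * (cap * tp p) := by
  obtain ⟨y, hy⟩ : ∃ y, y = (Q + 1) ^ 6 := ⟨_, rfl⟩
  have y1 : 1 ≤ y := hy ▸ Nat.one_le_pow _ _ (by omega)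
  have hT : 879 + 300 * y ≤ 2 * ((Q + 1) ^ 5 * Q) ^ 2 + 8 := by
    have h1 : ((Q + 1) ^ 5 * Q) ^ 2 = y * ((Q + 1) ^ 4 * Q * Q) := by rw [hy]; ring
    have h2 : 1 * 1 * 600 ≤ (Q + 1) ^ 4 * Q * Q :=
      Nat.mul_le_mul (Nat.mul_le_mul (Nat.one_le_pow _ _ (by omega)) (by omega)) (by omega)
    have h3 := Nat.mul_le_mul_left y h2
    omega
  have hk' : k + 879 * cap + 300 * (cap * y) ≤ cap * (2 * Lr) := by
    have h1 := Nat.mul_le_mul_left cap hT
    have h2 : cap * (879 + 300 * y) = 879 * cap + 300 * (cap * y) := by ring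
    omega
  clear hk hT
  rw [← hy]
  obtain ⟨u, u1, u2⟩ : ∃ u, cap * u ≤ k / 300 + 1 ∧ k / 300 + 1 < cap * u + cap :=
    ⟨(k / 300 + 1) / cap, Nat.mul_div_le _ _, by
      have := Nat.lt_mul_div_succ (k / 300 + 1) hcap
      rwa [mul_add, mul_one] at this⟩
  have hM : cap * (u + 1 + y) = cap * u + cap + cap * y := by ring
  have hM2 : 300 * (cap * (u + 1 + y)) ≤ k + 600 * cap + 300 * (cap * y) := by omega
  have hM3 : 300 * (u + 1 + y) ≤ 2 * Lr := by
    refine Nat.le_of_mul_le_mul_left (c := cap) ?_ hcap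
    rw [mul_left_comm]
    omega
  have ht : ∀ p, ∃ t, 0 < t ∧ sg p * k ≤ 1000000 * (cap * t) ∧
      1000000 * (cap * t) ≤ sg p * k + 1000000 * cap := fun p => by
    have h0 : 0 < 1000000 * cap := by omega
    have h1 := Nat.mul_div_le (sg p * k) (1000000 * cap)
    have h2 := Nat.lt_mul_div_succ (sg p * k) h0
    refine ⟨sg p * k / (1000000 * cap) + 1, Nat.succ_pos _, ?_, ?_⟩
    · rw [← mul_assoc]
      exact h2.le
    · rw [← mul_assoc, mul_add, mul_one]
      omega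
  choose tp t0 t1 t2 using ht
  refine ⟨u + 1 + y, tp, fun p => th p * Q / 1000000 + 10, fun p => w p * Q / 1000000 + 3,
    by omega, by omega, by omega, t0, fun p => ?_, fun x => ?_, fun p n hn => ⟨?_, ?_, ?_⟩⟩
  · have h1 := nums_sum {p' | p' ≤ p} th Q 10
    have h2 := Nat.mul_le_mul_right Q (c4 p)
    have h3 := t2 p
    generalize ∑ p' with p' ≤ p, (th p' * Q / 1000000 + 10) = X at h1 ⊢
    generalize ∑ p' with p' ≤ p, th p' = Y at h1 h2
    have h4 : 300 * (sg p * Q) + 1000000 * X ≤ 300000000 * Q := by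
      have : (300 * sg p + Y + 10000) * Q = 300 * (sg p * Q) + Y * Q + 10000 * Q := by ring
      omega
    refine Nat.le_of_mul_le_mul_left (c := 300000000 * cap) ?_ (by omega)
    have h5 : 1000000 * X ≤ 300000000 * Q := by omega
    calc 300000000 * cap * ((tp p + 7 + 271) * Q + (u + 1 + y) * X)
        = 300 * Q * (1000000 * (cap * tp p)) + 300000000 * Q * (278 * cap) +
          300 * (cap * (u + 1 + y)) * (1000000 * X) := by ring
      _ ≤ 300 * Q * (sg p * k + 1000000 * cap) + 300000000 * Q * (278 * cap) +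
          (k + 600 * cap + 300 * (cap * y)) * (1000000 * X) := by gcongr
      _ = k * (300 * (sg p * Q) + 1000000 * X) + 300000000 * Q * (279 * cap) +
          (600 * cap + 300 * (cap * y)) * (1000000 * X) := by ring
      _ ≤ k * (300000000 * Q) + 300000000 * Q * (279 * cap) +
          (600 * cap + 300 * (cap * y)) * (300000000 * Q) := by gcongr
      _ = 300000000 * Q * (k + 879 * cap + 300 * (cap * y)) := by ring
      _ ≤ 300000000 * Q * (cap * (2 * Lr)) := by gcongr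
      _ = _ := by ring
  · have h1 := nums_sum {p | bin p = x} w Q 3
    have h2 := Nat.mul_le_mul_right Q (c5 x)
    rw [add_mul] at h2
    beta_reduce
    omega
  · have h1 := c1 p
    have h2 := t1 p
    generalize (if lt p = true then 2 else 1) = r at h1 ⊢
    refine Nat.le_of_mul_le_mul_left (c := 300 * 1000000) ?_ (by omega)
    calc 300 * 1000000 * (r * n) = r * 1000000 * (300 * n) := by ring
      _ ≤ r * 1000000 * (sz p * k) := by gcongr
      _ = r * sz p * 1000000 * k := by ring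
      _ ≤ 300 * sg p * k := by gcongr
      _ = 300 * (sg p * k) := by ring
      _ ≤ 300 * (1000000 * (cap * tp p)) := by gcongr
      _ = _ := by ring
  · have h1 := nums_key 1 Q n (sz p) k (sg p) (th p) (th p * Q / 1000000 + 1) (cap * tp p)
      one_pos n (by omega) hn (by rw [one_mul]; exact c2 p) (by omega) (t1 p)
    rw [add_mul] at h1 ⊢
    omega
  · intro c hc
    have h1 := nums_key _ Q n (sz p) k (sg p) (w p) (w p * Q / 1000000 + 1) (cap * tp p)
      (by split_ifs <;> omega) c hc hn (c3 p) (by omega) (t1 p)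
    rw [add_mul] at h1 ⊢
    omega

end Pool.Agent.Lib.MP_12a5fd_co.YU
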