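import Pool.Agent.Lib.MP_12a5fd_co.BT.Defs

/-! The host bound forces the modulus `Q` to be large. -/

set_option autoImplicit false

namespace Pool.Agent.Lib.MP_12a5fd_co.YU

open Finset Pool.Agent.Lib.MP_2b1ae8_co.AT Pool.Agent.Lib.MP_12a5fd_co.BT

theorem Q_large (k Q Lr m q q' w : ℕ) (hk0 : 0 < k) (hL : 1 ≤ Lr) (hq : q' ≤ q)
    (hk : k ≤ capN Q Lr m q' * (2 * Lr))
    (hz : 100000 * (2 * (Lr * (Q ^ 4) ^ (3 * Lr) * m * q + w)) ≤ 100001 * k) : 800000 ≤ Q := by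
  have h8 : 8 < Q := by
    by_contra h
    have h0 : Q - 8 = 0 := by omega
    simp only [capN, h0, zero_mul] at hk
    omega
  have h1 : Q * capN Q Lr m q' ≤ (Q - 8) * ((Q ^ 4) ^ (3 * Lr) * m * q) := by
    have e : (Q ^ 4) ^ (3 * Lr) = (Q ^ 4) ^ (3 * Lr - 2) * (Q ^ 4) ^ 2 := by
      rw [← pow_add, show 3 * Lr - 2 + 2 = 3 * Lr by omega]
    rw [e]
    unfold capN mP
    calc _ = (Q - 8) * ((Q ^ 4) ^ (3 * Lr - 2) * (Q ^ 6 * (Q - 1) ^ 2) * (m - 3 * Lr) * q') := by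
          ring
      _ ≤ (Q - 8) * ((Q ^ 4) ^ (3 * Lr - 2) * (Q ^ 6 * Q ^ 2) * m * q) := by
          gcongr <;> omega
      _ = _ := by ring
  have h2 : 100000 * Q * k ≤ 100001 * (Q - 8) * k := by
    calc _ = 100000 * (Q * k) := by ring
      _ ≤ 100000 * (Q * (capN Q Lr m q' * (2 * Lr))) := by gcongr
      _ = 100000 * (Q * capN Q Lr m q' * (2 * Lr)) := by ring
      _ ≤ 100000 * ((Q - 8) * ((Q ^ 4) ^ (3 * Lr) * m * q) * (2 * Lr)) := by gcongr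
      _ = (Q - 8) * (100000 * (2 * (Lr * (Q ^ 4) ^ (3 * Lr) * m * q + 0))) := by ring
      _ ≤ (Q - 8) * (100000 * (2 * (Lr * (Q ^ 4) ^ (3 * Lr) * m * q + w))) := by gcongr; omega
      _ ≤ (Q - 8) * (100001 * k) := by gcongr
      _ = _ := by ring
  have h3 := Nat.le_of_mul_le_mul_right h2 hk0
  omega

end Pool.Agent.Lib.MP_12a5fd_co.YU
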