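import Pool.Agent.Lib.MP_12a5fd_co.YU.Forest3
import Pool.Agent.Lib.MP_12a5fd_co.YU.Cert
import Pool.Agent.Lib.MP_12a5fd_co.YU.Nums
import Pool.Agent.Lib.MP_12a5fd_co.YU.QLarge

/-! Packing all trees of distinct orders at most `271 k / 300`. -/

set_option autoImplicit false
set_option synthInstance.maxSize 4000

namespace Pool.Agent.Lib.MP_12a5fd_co.YU

open Finset Pool.Agent.Lib.MP_2b1ae8_co.AT Pool.Agent.Lib.MP_12a5fd_co.BT

/-- A smaller colour class of a tree. -/
lemma small_class {n : ℕ} (T : SimpleGraph (Fin n)) (hT : T.IsTree) :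
    ∃ A : Finset (Fin n), (∀ x y, T.Adj x y → (x ∈ A ↔ y ∉ A)) ∧ 2 * #A ≤ n := by
  obtain ⟨C⟩ := hT.colorable_two
  have h : ∀ c : Fin 2, ∀ x y, T.Adj x y →
      (x ∈ ({v | C v = c} : Finset (Fin n)) ↔ y ∉ ({v | C v = c} : Finset (Fin n))) := by
    intro c x y hxy
    have := C.valid hxy
    simp only [mem_filter, mem_univ, true_and]
    omega
  have h2 : #({v | C v = 0} : Finset (Fin n)) + #({v | C v = 1} : Finset (Fin n)) ≤ n := by
    rw [← card_union_of_disjoint (disjoint_filter.2 fun v _ h h' => by omega)]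
    exact (card_le_univ _).trans (by simp)
  rcases le_total #({v | C v = 0} : Finset (Fin n)) #({v | C v = 1} : Finset (Fin n)) with h3 | h3
  · exact ⟨_, h 0, by omega⟩
  · exact ⟨_, h 1, by omega⟩

theorem pack3 : ∃ k0 : ℕ, ∀ k a b : ℕ, k0 ≤ k → 100001 * k ≤ 200000 * a → 100001 * k ≤ 100000 * b →
    ∀ (I : Type) [Fintype I] [DecidableEq I] (n : I → ℕ), Function.Injective n →
      (∀ i, 300 * n i ≤ 271 * k) → ∀ T : (i : I) → SimpleGraph (Fin (n i)), (∀ i, (T i).IsTree) →
      ∃ f : (i : I) → Fin (n i) → Fin a ⊕ Fin b, (∀ i, Function.Injective (f i)) ∧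
        (∀ i x y, (T i).Adj x y → (f i x).isLeft ≠ (f i y).isLeft) ∧
        ∀ i j x y z t, (T i).Adj x y → (T j).Adj z t → s(f i x, f i y) = s(f j z, f j t) →
          i = j := by
  obtain ⟨C0, k0, -, h0⟩ := exists_num2 (1 / 100000) (by norm_num)
    (fun K => Fintype.card (Option Bool × Shp K))
    (fun K Q Lr m => if h : Q ≠ 0 then haveI : NeZero Q := ⟨h⟩
      Fintype.card (Pn (Fin (2 * Lr)) (Shp K) (Q ^ 2 * mP Q Lr m + 2)) *
        Fintype.card (Tn (GG Q) (Fin Lr ⊕ Fin (2 * Lr)) m) else 0)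
  refine ⟨k0 + 1, fun k a b hk ha hb I _ _ n hinj hn T hT => ?_⟩
  obtain ⟨K, D, g, Q, Lr, m, q, q', ζ, lam, e, η, η', θ, Mh, n0, r1, Mk, w, wd, H, -, hε⟩ :=
    h0 k (by omega)
  clear h0
  have hε' : 100000 * (2 * (Lr * (Q ^ 4) ^ (3 * Lr) * m * q + w)) ≤ 100001 * k := by
    generalize 2 * (Lr * (Q ^ 4) ^ (3 * Lr) * m * q + w) = z at hε
    have : ((100000 * z : ℕ) : ℝ) ≤ ((100001 * k : ℕ) : ℝ) := by
      push_cast
      linarith
    exact_mod_cast this
  have hQ : Q ≠ 0 := by have := H.hQ; omega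
  have : NeZero K := ⟨H.hK.ne'⟩
  have : NeZero Q := ⟨hQ⟩
  have : NeZero m := ⟨by have := H.hL; have := H.hm; omega⟩
  rw [dif_pos hQ] at H
  have hk0 : 0 < k := by omega
  have hcap0 : 0 < capN Q Lr m q' := by
    rcases Nat.eq_zero_or_pos (capN Q Lr m q') with h | h
    · have := H.hk
      rw [h] at this
      omega
    · exact h
  have hQl : 800000 ≤ Q := Q_large k Q Lr m q q' w hk0 H.hL (by have := H.hq; omega)
    (by have := H.hk; omega) hε'
  obtain ⟨ps, sz, sg, th, ww, lt, bin, c0, c1, c2, c3, c4, c5⟩ := cert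
  obtain ⟨M, tp, Θ, W, n1, n2, n3, n4, n5, n6, n7⟩ := nums sz sg th ww lt bin c1 c2 c3 c4 c5 k Q
    (capN Q Lr m q') Lr hQl hcap0 (by have := H.hk; omega)
  have hn0 : ∀ i, 0 < n i := fun i => Fin.pos_iff_nonempty.2 (hT i).connected.nonempty
  choose A hA hA2 using fun i => small_class (T i) (hT i)
  let bk : I → ℕ := fun i => (300 * n i - 1) / k
  have b1 : ∀ i, bk i < 271 := fun i => by
    have := hn i
    have := hn0 i
    exact (Nat.div_lt_iff_lt_mul hk0).2 (by omega)
  have b2 : ∀ i, 300 * n i ≤ (bk i + 1) * k := fun i => by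
    have h : 300 * n i - 1 < bk i * k + k := Nat.lt_div_mul_add hk0
    rw [add_mul]
    omega
  have b3 : ∀ i, bk i * k < 300 * n i := fun i => by
    have h : bk i * k ≤ 300 * n i - 1 := Nat.div_mul_le_self _ _
    have := hn0 i
    omega
  let pos : I → Fin 271 := fun i => ps (bk i)
  have b4 : ∀ i, 300 * n i ≤ sz (pos i) * k := fun i => by
    rw [c0 _ (b1 i)]
    exact b2 i
  obtain ⟨F, hF, hadj, hpar⟩ := exists_GF2 n T hT K D g H.hK H.hg
  have fib : ∀ i (p : (Σ i, Fin (n i)) → Prop) [DecidablePred p],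
      ({v | F.tr v = i ∧ p v} : Finset _) =
        ({x | p ⟨i, x⟩} : Finset (Fin (n i))).image fun x => (⟨i, x⟩ : Σ i, Fin (n i)) := by
    intro i p _
    ext ⟨j, x⟩
    simp only [hF, mem_filter, mem_univ, true_and, mem_image]
    refine ⟨?_, ?_⟩
    · rintro ⟨rfl, h⟩
      exact ⟨x, h, rfl⟩
    · rintro ⟨y, h, e⟩
      exact ⟨(congrArg Sigma.fst e).symm, e ▸ h⟩
  have hsz : ∀ i, #{v | F.tr v = i} ≤ n i := fun i => by
    have := (congrArg card (fib i fun _ => True)).trans_le card_image_le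
    simpa only [and_true, filter_true, card_fin] using this
  let sd : (Σ i, Fin (n i)) → Bool := fun v => xor (decide (v.2 ∈ A v.1)) (lt (pos v.1))
  have hin : ∀ i o, xor true (lt (pos i)) = o → 2 * #{v | F.tr v = i ∧ sd v = o} ≤ n i := by
    intro i o ho
    refine le_trans (Nat.mul_le_mul_left _ ?_) (hA2 i)
    rw [fib]
    refine card_image_le.trans (card_le_card fun x hx => ?_)
    have h := (mem_filter.1 hx).2
    by_contra hc
    simp only [sd, hc, decide_false, ← ho] at h
    cases hl : lt (pos i) <;> simp [hl] at h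
  have hall : ∀ i o, #{v | F.tr v = i ∧ sd v = o} ≤ n i := fun i o =>
    (card_le_card fun v hv => mem_filter.2 ⟨mem_univ _, (mem_filter.1 hv).2.1⟩).trans (hsz i)
  have hsdA : ∀ i x y, (T i).Adj x y → sd ⟨i, x⟩ ≠ sd ⟨i, y⟩ := fun i x y h => by
    have := hA i x y h
    by_cases hy : y ∈ A i <;> cases hl : lt (pos i) <;> simp [sd, hy, this, hl]
  obtain ⟨f, f1, f2, f3⟩ := pack_forest3 H F sd
    (by
      rintro ⟨i, x⟩ hv
      obtain ⟨y, h1, h2⟩ := hpar i x hv
      rw [h1]
      exact (hsdA i x y h2).symm)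
    (by
      rw [← card_range (k + 1), ← card_univ]
      exact card_le_card_of_injOn n (fun i _ => by have := hn i; simp; omega) hinj.injOn)
    n (fun i => by have := hn i; omega) hsz 271 150 M (k / 300 + 1) pos bin tp Θ W
    (fun p => by
      rw [← card_range (k / 300 + 1)]
      refine card_le_card_of_injOn (fun i => n i - ((sz p - 1) * k / 300 + 1)) (fun i hi => ?_)
        fun i hi j hj h => ?_
      · have h1 : pos i = p := (mem_filter.1 hi).2
        have h2 := c0 _ (b1 i)
        have h3 := b2 i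
        rw [show ps (bk i) = p from h1] at h2
        rw [h2, Nat.add_sub_cancel]
        rw [add_mul] at h3
        simp only [coe_range, Set.mem_Iio]
        omega
      · have h1 : pos i = p := (mem_filter.1 hi).2
        have h1' : pos j = p := (mem_filter.1 hj).2
        have h2 := c0 _ (b1 i)
        have h2' := c0 _ (b1 j)
        have h3 := b3 i
        have h3' := b3 j
        rw [show ps (bk i) = p from h1] at h2
        rw [show ps (bk j) = p from h1'] at h2'
        have h4 : bk j = bk i := by omega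
        rw [h4] at h3'
        simp only [h2, Nat.add_sub_cancel] at h
        exact hinj (by omega))
    n1 n2 n3 n4 n5 n6
    (fun i => by
      have := (n7 _ _ (b4 i)).1
      split_ifs at this <;> omega)
    (fun i => by
      have h1 := (n7 _ _ (b4 i)).1
      cases hl : lt (pos i)
      · have := hin i true (by simp [hl])
        simp only [hl, Bool.false_eq_true, if_false] at h1
        omega
      · have := hall i true
        simp only [hl, if_true] at h1
        omega)
    (fun i => (n7 _ _ (b4 i)).2.1)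
    (fun i => (n7 _ _ (b4 i)).2.2 _ (by
      cases hl : lt (pos i)
      · have := hall i false
        simpa using this
      · have := hin i false (by simp [hl])
        simpa using this))
  have hw : 0 < w := by have := H.hw; omega
  have ha' : Lr * (Q ^ 4) ^ (3 * Lr) * m * q + w ≤ a := by omega
  have hb' : 2 * (Lr * (Q ^ 4) ^ (3 * Lr) * m * q + w) ≤ b := by omega
  have hB : Fintype.card (((Fin Lr ⊕ Fin (2 * Lr)) → GG Q) × Fin m) = (Q ^ 4) ^ (3 * Lr) * m := by
    rw [Fintype.card_prod, Fintype.card_pi, prod_const, card_univ, card_GG, Fintype.card_fin,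
      Fintype.card_sum, Fintype.card_fin, Fintype.card_fin, show Lr + 2 * Lr = 3 * Lr by ring]
  obtain ⟨ι, ι1, ι2⟩ := exists_side (H := (Bk (GG Q) (Fin Lr ⊕ Fin (2 * Lr)) m × Fin q) ⊕
    (Bool × Fin w)) (fun x => x.elim (fun x => x.1.1.isLeft) Prod.fst) a b (by omega)
    (by
      refine (card_side Sum.isLeft q w true).trans (le_trans ?_ ha')
      have : #({U | U.isLeft = true} : Finset (Fin Lr ⊕ Fin (2 * Lr))) ≤ Lr := by
        refine le_trans (card_le_card ?_) (card_image_le (s := univ) (f := Sum.inl) |>.trans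
          (by simp))
        rintro (x | x) hx
        · exact mem_image_of_mem _ (mem_univ _)
        · simp at hx
      rw [hB, ← mul_assoc]
      gcongr)
    (by
      refine (card_side Sum.isLeft q w false).trans (le_trans ?_ hb')
      have : #({U | U.isLeft = false} : Finset (Fin Lr ⊕ Fin (2 * Lr))) ≤ 2 * Lr := by
        refine le_trans (card_le_card ?_) (card_image_le (s := univ) (f := Sum.inr) |>.trans
          (by simp))
        rintro (x | x) hx
        · simp at hx
        · exact mem_image_of_mem _ (mem_univ _)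
      rw [hB]
      calc _ ≤ 2 * Lr * ((Q ^ 4) ^ (3 * Lr) * m) * q + 2 * w := by gcongr; omega
        _ = _ := by ring)
  refine ⟨fun i x => ι (f ⟨i, x⟩), fun i x y h => ?_, fun i x y h => by
      rw [ι2, ι2, f3, f3]
      exact hsdA i x y h,
    fun i j x y z t h1 h2 h => ?_⟩
  · simpa using f1 ⟨i, x⟩ ⟨i, y⟩ (by rw [hF]) (ι1 h)
  · have h3 : s(f ⟨i, x⟩, f ⟨i, y⟩) = s(f ⟨j, z⟩, f ⟨j, t⟩) :=
      Sym2.map.injective ι1 (by simpa using h)
    have key : ∀ i x y, (T i).Adj x y → ∃ u, u ∉ F.R ∧ F.tr u = i ∧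
        s(f u, f (F.par u)) = s(f ⟨i, x⟩, f ⟨i, y⟩) := fun i x y h => by
      rcases hadj i x y h with ⟨h1, h2⟩ | ⟨h1, h2⟩
      · exact ⟨_, h1, by rw [hF], by rw [h2]⟩
      · exact ⟨_, h1, by rw [hF], by rw [h2, Sym2.eq_swap]⟩
    obtain ⟨u, u1, rfl, u3⟩ := key i x y h1
    obtain ⟨v, v1, rfl, v3⟩ := key j z t h2
    exact f2 u v u1 v1 (u3.trans (h3.trans v3.symm))

end Pool.Agent.Lib.MP_12a5fd_co.YU
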